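import Pool.Agent.H31.CLX

open Pool.Agent.H31.CL

theorem Pool.Agent.Results.MP_3bc7a7_gt.Neg.result
    (CH : Cardinal.continuum.{0} = Cardinal.aleph 1) :
    ∃ (Y : Type) (_ : TopologicalSpace Y), T4Space Y ∧ FirstCountableTopology Y ∧
      WeaklyLindelof Y ∧ ¬ CellularLindelof Y :=
  main CH
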